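import Pool.Agent.helper62.DP8.Spec

/-!
# Project sq8: (MP_e3efbc_co): `BIT`: masks and bits
-/

set_option autoImplicit false

namespace Pool.Agent.helper62.DP8

/-- `tb` is `testBit`. -/
theorem BIT_tb (m i : ℕ) : tb m i = m.testBit i := by
  have h1 : tb m i = Nat.beq ((m >>> i) &&& 1) 1 := rfl
  rw [h1]
  have h2 : (m >>> i) &&& 1 = 1 &&& (m >>> i) := Nat.land_comm _ _
  rw [h2]
  have h3 : m.testBit i = (1 &&& (m >>> i) != 0) := rfl
  rw [h3]
  have h4 : 1 &&& (m >>> i) = (m >>> i) % 2 := Nat.one_and_eq_mod_two _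
  rw [h4]
  rcases Nat.mod_two_eq_zero_or_one (m >>> i) with h | h <;> rw [h] <;> rfl

theorem BIT : BIT_stmt := by
  refine ⟨BIT_tb, ?_, ?_, ?_, ?_, ?_, ?_⟩
  · intro a b i
    rw [BIT_tb, BIT_tb, BIT_tb]
    exact Nat.testBit_or a b i
  · intro a b i
    rw [BIT_tb, BIT_tb, BIT_tb]
    exact Nat.testBit_and a b i
  · intro a b i
    rw [BIT_tb, BIT_tb, BIT_tb]
    have h1 : dif a b = a ^^^ (a &&& b) := rfl
    rw [h1, Nat.testBit_xor, Nat.testBit_and]
    cases a.testBit i <;> cases b.testBit i <;> rfl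
  · intro k i
    rw [BIT_tb]
    have h1 : Nat.shiftLeft 1 k = 2 ^ k := by
      have : Nat.shiftLeft 1 k = 1 <<< k := rfl
      rw [this, Nat.one_shiftLeft]
    rw [h1, Nat.testBit_two_pow]
    by_cases h : k = i
    · simp [h]
    · have h' : ¬ i = k := fun h2 => h h2.symm
      simp [h, h']
  · intro i
    rw [BIT_tb]
    exact Nat.zero_testBit i
  · intro α n k
    cases n <;> rfl

end Pool.Agent.helper62.DP8
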